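import Pool.Agent.Helper93.TS.Stmts
import Pool.Agent.Helper39.DiscL

/-!
# Two-scale sums-differences: from the cube to arbitrary sets of directions
-/

set_option autoImplicit false

namespace Pool.Agent.Helper93.TS

open MeasureTheory Set Filter Topology
open scoped ENNReal NNReal
open Pool.Agent.Helper39

theorem d5_bdd {m : ℕ} {al : ℝ} (h : CoreDirs m al)
    (K : Set ((Fin m → ℝ) × ℝ)) (V : Set (Fin m → ℝ))
    (hK : ∀ v ∈ V, ∃ x : Fin m → ℝ, 1 ≤ dimH {θ : ℝ | (x + θ • v, θ) ∈ K})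
    {s : ℝ} (hs : 0 < s) (hsV : ENNReal.ofReal s < dimH V) :
    ENNReal.ofReal (s/al + 1) ≤ dimH K := by
  -- a cube
  set W : (Fin m → ℤ) → Set (Fin m → ℝ) := fun c => {v | v ∈ V ∧ ∀ k, (c k : ℝ) ≤ v k ∧ v k ≤ c k + 1} with hW
  have hcover : V ⊆ ⋃ c, W c := by
    intro v hv
    exact mem_iUnion.2 ⟨fun k => ⌊v k⌋, hv, fun k => ⟨Int.floor_le _, (Int.lt_floor_add_one _).le⟩⟩
  obtain ⟨c, hc⟩ : ∃ c, ENNReal.ofReal s < dimH (W c) := by
    have h1 : ENNReal.ofReal s < ⨆ c, dimH (W c) := by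
      rw [← dimH_iUnion]
      exact hsV.trans_le (dimH_mono hcover)
    exact lt_iSup_iff.1 h1
  set cc : Fin m → ℝ := fun k => (c k : ℝ) with hcc
  let ψ : ((Fin m → ℝ) × ℝ) →L[ℝ] ((Fin m → ℝ) × ℝ) :=
    (ContinuousLinearMap.fst ℝ (Fin m → ℝ) ℝ - (ContinuousLinearMap.snd ℝ (Fin m → ℝ) ℝ).smulRight cc).prod
      (ContinuousLinearMap.snd ℝ (Fin m → ℝ) ℝ)
  have hψ : ∀ p, ψ p = (p.1 - p.2 • cc, p.2) := fun p => rfl
  have h1 : dimH (ψ '' K) ≤ dimH K := ψ.lipschitz.dimH_image_le K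
  refine le_trans ?_ h1
  refine h (ψ '' K) ((fun v => v - cc) '' W c) ?_ ?_ s hs ?_
  · rintro _ ⟨v, hv, rfl⟩
    refine ⟨fun k => ?_, fun k => ?_⟩
    · simp only [Pi.zero_apply, Pi.sub_apply, sub_nonneg]
      exact (hv.2 k).1
    · simp only [Pi.one_apply, Pi.sub_apply]
      have := (hv.2 k).2
      simp only [hcc]
      linarith
  · rintro _ ⟨v, hv, rfl⟩
    obtain ⟨x, hx⟩ := hK v hv.1
    refine ⟨x, hx.trans (dimH_mono (fun θ hθ => ?_))⟩
    refine ⟨(x + θ • v, θ), hθ, ?_⟩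
    rw [hψ]
    simp only [Prod.mk.injEq, and_true]
    rw [smul_sub, add_sub_assoc]
  · have h2 : dimH ((fun v => v - cc) '' W c) = dimH (W c) :=
      (IsometryEquiv.subRight cc).dimH_image (W c)
    rw [h2]
    exact hc

theorem d5_last {m : ℕ} {al : ℝ} (h : CoreDirs m al)
    (Om K : Set (EuclideanSpace ℝ (Fin (m+1)))) (hOm : ∀ ω ∈ Om, ‖ω‖ = 1 ∧ ω (Fin.last m) ≠ 0)
    (hK : ∀ ω ∈ Om, ∃ x : EuclideanSpace ℝ (Fin (m+1)), 1 ≤ dimH {t : ℝ | x + t • ω ∈ K})
    {s : ℝ} (hs : 0 < s) (hsV : ENNReal.ofReal s < dimH Om) :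
    ENNReal.ofReal (s/al + 1) ≤ dimH K := by
  set V : Set (Fin m → ℝ) := {v | dirf v ∈ Om ∨ -dirf v ∈ Om} with hV
  have hsub : Om ⊆ dirf '' V ∪ (fun v => -dirf v) '' V := by
    intro ω hω
    obtain ⟨h1, h2⟩ := hOm ω hω
    set a := ω (Fin.last m) with ha
    set v : Fin m → ℝ := fun k => ω k.castSucc / a with hv
    have h3 : ptf (v, (1:ℝ)) = a⁻¹ • ω := by
      ext i
      refine Fin.lastCases ?_ (fun k => ?_) i
      · rw [ptf_last]
        simp only [PiLp.smul_apply, smul_eq_mul]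
        rw [← ha, inv_mul_cancel₀ h2]
      · rw [ptf_castSucc]
        simp only [PiLp.smul_apply, smul_eq_mul, hv]
        rw [div_eq_inv_mul]
    have h4 : ‖ptf (v, (1:ℝ))‖⁻¹ = |a| := by
      rw [h3, norm_smul, h1, mul_one, norm_inv, inv_inv, Real.norm_eq_abs]
    have h5 : dirf v = (|a| * a⁻¹) • ω := by
      unfold dirf
      rw [h4, h3, smul_smul]
    rcases lt_or_gt_of_ne h2 with h6 | h6
    · rw [abs_of_neg h6, neg_mul, mul_inv_cancel₀ h2, neg_one_smul] at h5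
      right
      refine ⟨v, Or.inr ?_, ?_⟩
      · rw [h5, neg_neg]; exact hω
      · simp only [h5, neg_neg]
    · rw [abs_of_pos h6, mul_inv_cancel₀ h2, one_smul] at h5
      left
      refine ⟨v, Or.inl ?_, ?_⟩
      · rw [h5]; exact hω
      · exact h5
  have hdimV : dimH Om ≤ dimH V := by
    refine (dimH_mono hsub).trans ?_
    rw [dimH_union, max_le_iff]
    exact ⟨(contDiff_dirf m).contDiffOn.dimH_image_le convex_univ (subset_univ V),
      (contDiff_dirf m).neg.contDiffOn.dimH_image_le convex_univ (subset_univ V)⟩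
  have hanti : AntilipschitzWith 1 (ptf (m := m)) := by
    refine AntilipschitzWith.of_le_mul_dist (fun p q => ?_)
    rw [NNReal.coe_one, one_mul]
    exact dist_le_ptf p q
  refine le_trans ?_ (hanti.dimH_preimage_le K)
  refine d5_bdd h (ptf ⁻¹' K) V ?_ hs (hsV.trans_le hdimV)
  intro v hv
  have hnpos : 0 < ‖ptf (v, (1:ℝ))‖ := norm_pos_iff.2 (ptf_ne_zero v)
  -- a line in the direction `dirf v` up to sign
  obtain ⟨x, σ, hσ, hx⟩ : ∃ (x : EuclideanSpace ℝ (Fin (m+1))) (σ : ℝ), σ * σ = 1 ∧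
      1 ≤ dimH {t : ℝ | x + t • (σ • dirf v) ∈ K} := by
    rcases hv with hv | hv
    · obtain ⟨x, hx⟩ := hK _ hv
      exact ⟨x, 1, by norm_num, by simpa using hx⟩
    · obtain ⟨x, hx⟩ := hK _ hv
      exact ⟨x, -1, by norm_num, by simpa using hx⟩
  set a := x (Fin.last m) with ha
  set N := ‖ptf (v, (1:ℝ))‖ with hN
  refine ⟨fun k => x k.castSucc - a * v k, hx.trans ?_⟩
  have hσ0 : σ ≠ 0 := by
    rintro rfl
    norm_num at hσ
  let φ : ℝ → ℝ := fun θ => (θ - a) * (N * σ)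
  have hφ : LipschitzWith (Real.toNNReal (|N * σ|)) φ := by
    refine LipschitzWith.of_dist_le_mul (fun p q => ?_)
    rw [Real.dist_eq, Real.dist_eq, Real.coe_toNNReal _ (abs_nonneg _), ← abs_mul]
    apply le_of_eq
    simp only [φ]
    congr 1
    ring
  have hsurj : {t : ℝ | x + t • (σ • dirf v) ∈ K} ⊆
      φ '' {θ : ℝ | ((fun k => x k.castSucc - a * v k) + θ • v, θ) ∈ ptf ⁻¹' K} := by
    intro t ht
    refine ⟨t * (N * σ)⁻¹ + a, ?_, ?_⟩
    · simp only [mem_ofPred_eq, mem_preimage] at ht ⊢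
      refine Eq.mpr (congrArg (fun z => z ∈ K) ?_) ht
      unfold dirf
      rw [← hN]
      have hz : t * (N * σ)⁻¹ = t * (σ * N⁻¹) := by
        rw [mul_inv]
        have : σ⁻¹ = σ := by field_simp; linarith [hσ, sq σ]
        rw [this]
        ring
      ext i
      refine Fin.lastCases ?_ (fun k => ?_) i
      · rw [ptf_last]
        simp only [PiLp.add_apply, PiLp.smul_apply, smul_eq_mul]
        rw [ptf_last, ← ha, hz]
        simp only
        ring
      · rw [ptf_castSucc]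
        simp only [PiLp.add_apply, PiLp.smul_apply, smul_eq_mul, Pi.add_apply, Pi.smul_apply]
        rw [ptf_castSucc, hz]
        simp only
        ring
    · simp only [φ]
      have : N * σ ≠ 0 := mul_ne_zero hnpos.ne' hσ0
      field_simp
      ring
  exact (dimH_mono hsurj).trans (hφ.dimH_image_le _)

theorem d5_dirs {m : ℕ} {al : ℝ} (hal : 0 < al) (h : CoreDirs m al)
    (Om K : Set (EuclideanSpace ℝ (Fin (m+1)))) (hOm : ∀ ω ∈ Om, ‖ω‖ = 1) (hne : Om.Nonempty)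
    (hK : ∀ ω ∈ Om, ∃ x : EuclideanSpace ℝ (Fin (m+1)), 1 ≤ dimH {t : ℝ | x + t • ω ∈ K}) :
    dimH Om / ENNReal.ofReal al + 1 ≤ dimH K := by
  rcases eq_or_ne (dimH Om) 0 with h0 | h0
  · rw [h0, ENNReal.zero_div, zero_add]
    obtain ⟨ω, hω⟩ := hne
    obtain ⟨x, hx⟩ := hK ω hω
    have hiso : Isometry (fun t : ℝ => x + t • ω) := by
      refine Isometry.of_dist_eq (fun p q => ?_)
      rw [dist_add_left, dist_eq_norm, ← sub_smul, norm_smul, hOm ω hω, mul_one, Real.dist_eq,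
        Real.norm_eq_abs]
    calc (1 : ℝ≥0∞) ≤ dimH {t : ℝ | x + t • ω ∈ K} := hx
      _ = dimH ((fun t : ℝ => x + t • ω) '' {t : ℝ | x + t • ω ∈ K}) := (hiso.dimH_image _).symm
      _ ≤ dimH K := dimH_mono (by rintro _ ⟨t, ht, rfl⟩; exact ht)
  · have htop : dimH Om ≠ ∞ := Real.dimH_ne_top Om
    set d := (dimH Om).toReal with hd
    have hdpos : 0 < d := ENNReal.toReal_pos h0 htop
    have hde : dimH Om = ENNReal.ofReal d := (ENNReal.ofReal_toReal htop).symm
    have hmain : ∀ s : ℝ, 0 < s → s < d → ENNReal.ofReal (s/al + 1) ≤ dimH K := by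
      intro s hs hsd
      have hsO : ENNReal.ofReal s < dimH Om := by
        rw [hde]
        exact (ENNReal.ofReal_lt_ofReal_iff hdpos).2 hsd
      have hcover : Om ⊆ ⋃ i : Fin (m+1), {ω | ω ∈ Om ∧ ω i ≠ 0} := by
        intro ω hω
        by_contra hcon
        simp only [mem_iUnion, mem_ofPred_eq, not_exists, not_and, not_not] at hcon
        have h1 : ω = 0 := by
          ext i
          exact hcon i hω
        have h2 := hOm ω hω
        rw [h1, norm_zero] at h2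
        exact zero_ne_one h2
      obtain ⟨i, hi⟩ : ∃ i : Fin (m+1), ENNReal.ofReal s < dimH {ω | ω ∈ Om ∧ ω i ≠ 0} := by
        have h1 : ENNReal.ofReal s < ⨆ i : Fin (m+1), dimH {ω | ω ∈ Om ∧ ω i ≠ 0} := by
          rw [← dimH_iUnion]
          exact hsO.trans_le (dimH_mono hcover)
        exact lt_iSup_iff.1 h1
      let g : EuclideanSpace ℝ (Fin (m+1)) ≃ₗᵢ[ℝ] EuclideanSpace ℝ (Fin (m+1)) :=
        LinearIsometryEquiv.piLpCongrLeft 2 ℝ ℝ (Equiv.swap i (Fin.last m))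
      have hglast : ∀ ω, g ω (Fin.last m) = ω i := by
        intro ω
        simp [g, LinearIsometryEquiv.piLpCongrLeft_apply, Equiv.piCongrLeft'_apply]
      have hgK : dimH (g '' K) = dimH K := g.isometry.dimH_image K
      rw [← hgK]
      refine d5_last h (g '' {ω | ω ∈ Om ∧ ω i ≠ 0}) (g '' K) ?_ ?_ hs ?_
      · rintro _ ⟨ω, ⟨hω, hωi⟩, rfl⟩
        exact ⟨by rw [g.norm_map]; exact hOm ω hω, by rw [hglast]; exact hωi⟩
      · rintro _ ⟨ω, ⟨hω, _⟩, rfl⟩
        obtain ⟨x, hx⟩ := hK ω hω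
        refine ⟨g x, hx.trans (dimH_mono (fun t ht => ?_))⟩
        refine ⟨x + t • ω, ht, ?_⟩
        rw [map_add, map_smul]
      · rw [g.isometry.dimH_image]
        exact hi
    have hlim : ENNReal.ofReal (d/al + 1) ≤ dimH K := by
      have h1 : Tendsto (fun s : ℝ => ENNReal.ofReal (s/al + 1)) (𝓝[<] d) (𝓝 (ENNReal.ofReal (d/al + 1))) := by
        refine (ENNReal.continuous_ofReal.tendsto _).comp ?_
        refine Tendsto.mono_left ?_ nhdsWithin_le_nhds
        refine ContinuousAt.tendsto ?_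
        fun_prop
      refine le_of_tendsto h1 ?_
      have h2 : ∀ᶠ s : ℝ in 𝓝[<] d, 0 < s := nhdsWithin_le_nhds (lt_mem_nhds hdpos)
      filter_upwards [self_mem_nhdsWithin, h2] with s hs1 hs2
      exact hmain s hs2 hs1
    rw [hde, ← ENNReal.ofReal_div_of_pos hal, ← ENNReal.ofReal_one, ← ENNReal.ofReal_add (by positivity) zero_le_one]
    exact hlim


theorem st_D5 : ST_D5 := by
  intro n al hn hal h Om K hOm hne hK
  obtain ⟨m, rfl⟩ : ∃ m, n = m + 1 := ⟨n - 1, by omega⟩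
  exact d5_dirs hal (by simpa using h) Om K hOm hne hK

end Pool.Agent.Helper93.TS
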